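import Mathlib

namespace Pool.Agent.Results.MP_26672a_co.TwoLevel

/-- A word of length `n` over the alphabet `[r] = {1,…,r}`; the letter `a : Fin r` stands for the
symbol `a + 1`. -/
abbrev Word (r n : ℕ) := Fin n → Fin r

/-- `c_x(w)`: the number of positions of `w` carrying the symbol `x`. -/
def cnt {r n : ℕ} (x : ℕ) (w : Word r n) : ℕ :=
  (Finset.univ.filter (fun i => ((w i : Fin r) : ℕ) + 1 = x)).card

/-- The word obtained from `w` by deleting the letter at position `p`. -/
def del {r n : ℕ} (w : Word r (n + 1)) (p : Fin (n + 1)) : Word r n := fun i => w (p.succAbove i)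

/-- The deletion shadow of a family of words of length `n + 1`. -/
def shadow {r n : ℕ} (F : Finset (Word r (n + 1))) : Finset (Word r n) :=
  F.biUnion (fun w => Finset.univ.image (fun p => del w p))

/-- The family `F_{s,k,ℓ}` of words in `[s]^n ⊆ [r]^n` with `c_s ≤ k`, or `c_s = k + 1` and
`c_{s-1} ≤ ℓ`. -/
def fam (r n s k l : ℕ) : Finset (Word r n) :=
  Finset.univ.filter (fun w => (∀ i, ((w i : Fin r) : ℕ) + 1 ≤ s) ∧
    (cnt s w ≤ k ∨ (cnt s w = k + 1 ∧ cnt (s - 1) w ≤ l)))

/-- the 16 words of length 3 -/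
def U : List (Fin 3 × Fin 3 × Fin 3) :=
  [(0,0,0),(0,0,1),(0,0,2),(0,1,0),(0,1,1),(0,2,0),(0,2,1),(0,2,2),(1,1,1),(2,0,0),(2,0,1),(2,0,2),
    (2,1,1),(2,2,0),(2,2,1),(2,2,2)]

/-- membership in `U` -/
def inU (w : Word 3 3) : Bool := decide ((w 0, w 1, w 2) ∈ U)

/-- the better family -/
def G : Finset (Word 3 4) := Finset.univ.filter (fun w => ∀ p, inU (del w p) = true)

set_option maxRecDepth 100000 in
lemma card_fam : (fam 3 4 3 0 1).card = 32 := by decide +kernel

set_option maxRecDepth 100000 in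
lemma card_shadow_fam : (shadow (fam 3 4 3 0 1)).card = 17 := by decide +kernel

set_option maxRecDepth 100000 in
lemma card_G : G.card = 32 := by decide +kernel

set_option maxRecDepth 100000 in
lemma card_shadow_G : (shadow G).card = 16 := by decide +kernel

/-- For `r = 3`, `n = 4` the family `F_{3,0,1}` does not have minimal deletion shadow given its
size. -/
theorem result : ∃ r n s k l : ℕ, 2 ≤ r ∧ 2 ≤ n + 1 ∧ 2 ≤ s ∧ s ≤ r ∧ k ≤ (n + 1) - 1 ∧
    l ≤ (n + 1) - k - 1 ∧
    ∃ H : Finset (Word r (n + 1)), H.card = (fam r (n + 1) s k l).card ∧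
      (shadow H).card < (shadow (fam r (n + 1) s k l)).card := by
  refine ⟨3, 3, 3, 0, 1, by norm_num, by norm_num, by norm_num, by norm_num, by norm_num,
    by norm_num, G, ?_, ?_⟩
  · rw [card_G, card_fam]
  · rw [card_shadow_G, card_shadow_fam]; norm_num

end Pool.Agent.Results.MP_26672a_co.TwoLevel
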